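import Mathlib
import Pool.Agent.U514.SP.Stm

/-!
# Project SP, package ITEM: costs of the single items of the layout
-/

set_option autoImplicit false

namespace Pool.Agent.U458.SP

open Finset
open Pool.Agent.U514.SP

variable {F V : Type} [Field F] (p : Par F V)

lemma dst_pt (i3 k3 τ t I J j u v u' v' : ℕ) :
    dst (p.pt i3 k3 τ t I J j u v) (p.pt i3 k3 τ t I J j u' v') =
      ((u : ℤ) - u').natAbs + ((v : ℤ) - v').natAbs := by
  simp only [dst, Par.pt]
  push_cast
  congr 1 <;> congr 1 <;> ring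

lemma opd_len (e : V ⊕ F) (pos : p.Item → ℤ × ℤ) (q : ℤ × ℤ) : (p.opd e).len pos q = 0 := by
  cases e <;> rfl

lemma elim_const_len (o : Option (Fin p.nX × Fin p.nX)) (f : Fin p.nX × Fin p.nX → F)
    (pos : p.Item → ℤ × ℤ) (q : ℤ × ℤ) :
    ((o.elim (.const 0) fun r => .const (f r) : Opd F V p.Item)).len pos q = 0 := by
  cases o <;> rfl

lemma elim_opd_len (o : Option (Fin p.nX × Fin p.nX)) (f : Fin p.nX × Fin p.nX → V ⊕ F)
    (pos : p.Item → ℤ × ℤ) (q : ℤ × ℤ) :
    ((o.elim (.const 0) fun r => p.opd (f r) : Opd F V p.Item)).len pos q = 0 := by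
  cases o with
  | none => rfl
  | some r => exact opd_len p _ _ _

lemma item_left (i3 k3 : Fin p.s) (τ : Fin p.nT) (i : Fin p.m)
    (J : Fin (p.m / p.t τ)) (j : Fin p.N) :
    p.prog.itemCost (p.left i3 k3 τ i J j) ≤ 5 * p.t τ ^ 2 := by
  have h : ∀ e ∈ range (p.t τ ^ 2),
      (2 + dst (p.prog.pos (p.left i3 k3 τ i J j) e false) (p.prog.pos (p.left i3 k3 τ i J j) e true)
      + (p.prog.fst (p.left i3 k3 τ i J j) e).len p.prog.last
          (p.prog.pos (p.left i3 k3 τ i J j) e false)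
      + (p.prog.snd (p.left i3 k3 τ i J j) e).len p.prog.last
          (p.prog.pos (p.left i3 k3 τ i J j) e false)
      + if e = 0 then 0 else dst (p.prog.pos (p.left i3 k3 τ i J j) (e - 1) true)
          (p.prog.pos (p.left i3 k3 τ i J j) e true)) ≤ 5 := by
    intro e _
    have h1 : dst (p.prog.pos (p.left i3 k3 τ i J j) e false)
        (p.prog.pos (p.left i3 k3 τ i J j) e true) = 1 := by
      refine (dst_pt p _ _ _ _ _ _ _ _ _ _ _).trans ?_
      simp
    have h2 : (p.prog.fst (p.left i3 k3 τ i J j) e).len p.prog.last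
          (p.prog.pos (p.left i3 k3 τ i J j) e false) = 0 := elim_const_len p _ _ _ _
    have h3 : (p.prog.snd (p.left i3 k3 τ i J j) e).len p.prog.last
          (p.prog.pos (p.left i3 k3 τ i J j) e false) = 0 := elim_opd_len p _ _ _ _
    have h4 : (if e = 0 then 0 else dst (p.prog.pos (p.left i3 k3 τ i J j) (e - 1) true)
          (p.prog.pos (p.left i3 k3 τ i J j) e true)) ≤ 2 := by
      split_ifs with he
      · omega
      · refine (dst_pt p _ _ _ _ _ _ _ _ _ _ _).le.trans ?_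
        simp only [Bool.toNat_true]
        omega
    omega
  calc p.prog.itemCost (p.left i3 k3 τ i J j) ≤ ∑ _e ∈ range (p.t τ ^ 2), 5 :=
        Finset.sum_le_sum h
    _ = 5 * p.t τ ^ 2 := by simp [mul_comm]

lemma item_right (i3 k3 : Fin p.s) (τ : Fin p.nT) (i : Fin p.m)
    (J : Fin (p.m / p.t τ)) (j : Fin p.N) :
    p.prog.itemCost (p.right i3 k3 τ i J j) ≤ 5 * p.t τ ^ 2 := by
  have h : ∀ e ∈ range (p.t τ ^ 2),
      (2 + dst (p.prog.pos (p.right i3 k3 τ i J j) e false)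
        (p.prog.pos (p.right i3 k3 τ i J j) e true)
      + (p.prog.fst (p.right i3 k3 τ i J j) e).len p.prog.last
          (p.prog.pos (p.right i3 k3 τ i J j) e false)
      + (p.prog.snd (p.right i3 k3 τ i J j) e).len p.prog.last
          (p.prog.pos (p.right i3 k3 τ i J j) e false)
      + if e = 0 then 0 else dst (p.prog.pos (p.right i3 k3 τ i J j) (e - 1) true)
          (p.prog.pos (p.right i3 k3 τ i J j) e true)) ≤ 5 := by
    intro e _
    have h1 : dst (p.prog.pos (p.right i3 k3 τ i J j) e false)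
        (p.prog.pos (p.right i3 k3 τ i J j) e true) = 1 := by
      refine (dst_pt p _ _ _ _ _ _ _ _ _ _ _).trans ?_
      simp
    have h2 : (p.prog.fst (p.right i3 k3 τ i J j) e).len p.prog.last
          (p.prog.pos (p.right i3 k3 τ i J j) e false) = 0 := elim_const_len p _ _ _ _
    have h3 : (p.prog.snd (p.right i3 k3 τ i J j) e).len p.prog.last
          (p.prog.pos (p.right i3 k3 τ i J j) e false) = 0 := elim_opd_len p _ _ _ _
    have h4 : (if e = 0 then 0 else dst (p.prog.pos (p.right i3 k3 τ i J j) (e - 1) true)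
          (p.prog.pos (p.right i3 k3 τ i J j) e true)) ≤ 2 := by
      split_ifs with he
      · omega
      · refine (dst_pt p _ _ _ _ _ _ _ _ _ _ _).le.trans ?_
        simp only [Bool.toNat_true]
        omega
    omega
  calc p.prog.itemCost (p.right i3 k3 τ i J j) ≤ ∑ _e ∈ range (p.t τ ^ 2), 5 :=
        Finset.sum_le_sum h
    _ = 5 * p.t τ ^ 2 := by simp [mul_comm]

/-- the telescoping sum of the wires between consecutive sum gates -/
lemma tele (A B g : ℕ) (f : ℕ → ℕ)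
    (hf : ∀ e, 1 ≤ e → f e ≤ A * (e / g - (e - 1) / g) + B) (n : ℕ) :
    ∑ e ∈ range n, (if e = 0 then 0 else f e) ≤ A * ((n - 1) / g) + B * n := by
  induction n with
  | zero => simp
  | succ n ih =>
    rw [Finset.sum_range_succ]
    by_cases hn : n = 0
    · subst hn
      simp
    · rw [if_neg hn]
      have h1 := hf n (by omega)
      have h2 : (n - 1) / g ≤ n / g := Nat.div_le_div_right (by omega)
      have h3 : A * ((n - 1) / g) + A * (n / g - (n - 1) / g) = A * (n / g) := by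
        rw [← mul_add]
        congr 1
        omega
      have h4 : (n + 1 - 1) / g = n / g := by rw [Nat.add_sub_cancel]
      rw [h4]
      have h5 : B * (n + 1) = B * n + B := by ring
      omega

lemma dst_step (i3 k3 τ t I J e u v : ℕ) (he : 1 ≤ e) (hg : 0 < p.g) :
    dst (p.pt i3 k3 τ t I J (e - 1) u v) (p.pt i3 k3 τ t I J e u v) ≤
      (p.W + 2 * t * p.g) * (e / p.g - (e - 1) / p.g) + 2 * t := by
  obtain ⟨e, rfl⟩ : ∃ e', e = e' + 1 := ⟨e - 1, by omega⟩
  simp only [Nat.add_sub_cancel]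
  have hx : ∀ q : ℕ, ((p.base i3 k3 + (((τ * p.m + I) * p.m + J) * p.g + q) * p.W + u : ℕ) : ℤ) =
    ((p.base i3 k3 + ((τ * p.m + I) * p.m + J) * p.g * p.W + u : ℕ) : ℤ) + (q * p.W : ℕ) := by
    intro q
    push_cast
    ring
  simp only [dst, Par.pt]
  rw [hx, hx]
  generalize ((p.base i3 k3 + ((τ * p.m + I) * p.m + J) * p.g * p.W + u : ℕ) : ℤ) = X
  by_cases hd : (e + 1) % p.g = 0
  · have h1 : (e + 1) / p.g = e / p.g + 1 := by
      rw [Nat.succ_div, if_pos (Nat.dvd_of_mod_eq_zero hd)]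
    have h2 : e % p.g < p.g := Nat.mod_lt _ hg
    rw [h1, hd]
    have h3 : e / p.g + 1 - e / p.g = 1 := by omega
    rw [h3, mul_one]
    have h4 : (e / p.g + 1) * p.W = e / p.g * p.W + p.W := by ring
    rw [h4]
    have h5 : e % p.g * (2 * t) ≤ 2 * t * p.g := by
      calc e % p.g * (2 * t) ≤ p.g * (2 * t) := Nat.mul_le_mul_right _ h2.le
        _ = 2 * t * p.g := by ring
    generalize e / p.g * p.W = a at *
    generalize e % p.g * (2 * t) = b at *
    generalize 2 * t * p.g = c at *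
    generalize p.W = w at *
    push_cast
    omega
  · have h0 : ¬ p.g ∣ e + 1 := fun h => hd (Nat.mod_eq_zero_of_dvd h)
    have h1 : (e + 1) / p.g = e / p.g := by
      rw [Nat.succ_div, if_neg h0, add_zero]
    have h2 : (e + 1) % p.g = e % p.g + 1 := by
      have h3 := Nat.div_add_mod (e + 1) p.g
      have h4 := Nat.div_add_mod e p.g
      rw [h1] at h3
      omega
    rw [h1, h2]
    have h5 : (e % p.g + 1) * (2 * t) = e % p.g * (2 * t) + 2 * t := by ring
    rw [h5]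
    generalize e / p.g * p.W = a at *
    generalize e % p.g * (2 * t) = b at *
    simp only [Nat.sub_self, mul_zero, zero_add]
    push_cast
    omega

lemma item_mid (hp : p.Good) (i3 k3 : Fin p.s) (τ : Fin p.nT) (i k : Fin p.m) :
    p.prog.itemCost (p.mid i3 k3 τ i k) ≤ 20 * p.N * p.t τ := by
  have hm := hp.m_pos
  have ht := hp.t_pos τ
  have hal : 0 < p.al := lt_of_lt_of_le hm hp.m_le
  have hg : 0 < p.g := Nat.mul_pos hm hal
  have ht2 : 1 ≤ p.t τ ^ 2 := Nat.one_le_pow _ _ ht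
  have hk : (k : ℕ) % p.t τ < p.t τ := Nat.mod_lt _ ht
  have hi : (i : ℕ) % p.t τ < p.t τ := Nat.mod_lt _ ht
  have h1 : ∀ e, dst (p.prog.pos (p.mid i3 k3 τ i k) e false)
        (p.prog.pos (p.mid i3 k3 τ i k) e true) = 1 := by
    intro e
    refine (dst_pt p _ _ _ _ _ _ _ _ _ _ _).trans ?_
    simp
  have h2 : ∀ e, (p.prog.fst (p.mid i3 k3 τ i k) e).len p.prog.last
          (p.prog.pos (p.mid i3 k3 τ i k) e false) ≤ 2 * p.t τ := by
    intro e
    show (dite _ _ _ : Opd F V p.Item).len _ _ ≤ _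
    split_ifs with h
    · refine (dst_pt p _ _ _ _ _ _ _ _ _ _ _).le.trans ?_
      show ((2 * (p.t τ ^ 2 - 1) + 1 : ℕ) - (2 * p.t τ ^ 2 + 2 * ((k : ℕ) % p.t τ) + 0 : ℕ) : ℤ).natAbs
        + _ ≤ _
      omega
    · exact Nat.zero_le _
  have h3 : ∀ e, (p.prog.snd (p.mid i3 k3 τ i k) e).len p.prog.last
          (p.prog.pos (p.mid i3 k3 τ i k) e false) ≤ 4 * p.t τ := by
    intro e
    show (dite _ _ _ : Opd F V p.Item).len _ _ ≤ _
    split_ifs with h
    · refine (dst_pt p _ _ _ _ _ _ _ _ _ _ _).le.trans ?_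
      show ((2 * (p.t τ ^ 2 - 1) + 1 : ℕ) - (2 * p.t τ ^ 2 + 2 * ((k : ℕ) % p.t τ) + 0 : ℕ) : ℤ).natAbs
        + ((p.t τ + (k : ℕ) % p.t τ : ℕ) - ((i : ℕ) % p.t τ : ℕ) : ℤ).natAbs ≤ _
      omega
    · exact Nat.zero_le _
  have h4 : ∑ e ∈ range p.N, (if e = 0 then 0 else
      dst (p.prog.pos (p.mid i3 k3 τ i k) (e - 1) true) (p.prog.pos (p.mid i3 k3 τ i k) e true)) ≤
      (p.W + 2 * p.t τ * p.g) * ((p.N - 1) / p.g) + 2 * p.t τ * p.N := by
    apply tele
    intro e he
    exact dst_step p _ _ _ _ _ _ _ _ _ he hg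
  have h5 : (p.N - 1) / p.g ≤ p.g := by
    calc (p.N - 1) / p.g ≤ p.N / p.g := Nat.div_le_div_right (Nat.sub_le _ _)
      _ = p.g := Nat.mul_div_cancel _ hg
  have h6 : p.W * p.g ≤ 4 * p.N := by
    have : p.m ^ 2 ≤ p.g := by
      rw [pow_two]
      exact Nat.mul_le_mul_left _ hp.m_le
    calc p.W * p.g = 4 * (p.m ^ 2 * p.g) := by ring
      _ ≤ 4 * (p.g * p.g) := by gcongr
      _ = 4 * p.N := rfl
  have h7 : (p.W + 2 * p.t τ * p.g) * ((p.N - 1) / p.g) ≤ 4 * p.N + 2 * p.t τ * p.N := by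
    calc (p.W + 2 * p.t τ * p.g) * ((p.N - 1) / p.g) ≤ (p.W + 2 * p.t τ * p.g) * p.g :=
          Nat.mul_le_mul_left _ h5
      _ = p.W * p.g + 2 * p.t τ * (p.g * p.g) := by ring
      _ ≤ 4 * p.N + 2 * p.t τ * p.N := Nat.add_le_add_right h6 _
  have h8 : p.prog.itemCost (p.mid i3 k3 τ i k) ≤ ∑ e ∈ range p.N, ((3 + 6 * p.t τ) +
      (if e = 0 then 0 else
      dst (p.prog.pos (p.mid i3 k3 τ i k) (e - 1) true)
        (p.prog.pos (p.mid i3 k3 τ i k) e true))) := by
    refine Finset.sum_le_sum fun e _ => ?_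
    have h1e := h1 e
    have h2e := h2 e
    have h3e := h3 e
    refine Nat.add_le_add_right ?_ _
    omega
  rw [Finset.sum_add_distrib, Finset.sum_const, Finset.card_range, smul_eq_mul] at h8
  have h9 : p.N ≤ p.N * p.t τ := Nat.le_mul_of_pos_right _ ht
  have e1 : p.N * (3 + 6 * p.t τ) = 3 * p.N + 6 * (p.N * p.t τ) := by ring
  have e2 : 2 * p.t τ * p.N = 2 * (p.N * p.t τ) := by ring
  have e3 : 20 * p.N * p.t τ = 20 * (p.N * p.t τ) := by ring
  rw [e1] at h8
  rw [e2] at h4 h7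
  rw [e3]
  omega

lemma item_out (hp : p.Good) (i3 k3 : Fin p.s) (x : Fin p.nX) (i : Fin p.m) (z : Fin p.nX)
    (k : Fin p.m) :
    p.prog.itemCost (p.out i3 k3 x i z k) ≤ 20 * p.g * p.nX ^ 2 * p.nT ^ 2 * p.m ^ 4 := by
  have hm := hp.m_pos
  have hal : 0 < p.al := lt_of_lt_of_le hm hp.m_le
  have hg : 0 < p.g := Nat.mul_pos hm hal
  have h1 : ∀ e, dst (p.prog.pos (p.out i3 k3 x i z k) e false)
        (p.prog.pos (p.out i3 k3 x i z k) e true) = 1 := by
    intro e
    show dst (((p.base i3 k3 : ℕ) : ℤ), _) (((p.base i3 k3 : ℕ) : ℤ), _) = 1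
    simp only [dst, Bool.toNat_true, Bool.toNat_false]
    omega
  have h4 : ∀ e, e ≠ 0 → dst (p.prog.pos (p.out i3 k3 x i z k) (e - 1) true)
        (p.prog.pos (p.out i3 k3 x i z k) e true) = 2 := by
    intro e he
    show dst (((p.base i3 k3 : ℕ) : ℤ), _) (((p.base i3 k3 : ℕ) : ℤ), _) = 2
    simp only [dst, Bool.toNat_true]
    omega
  have h3 : ∀ e, (p.prog.snd (p.out i3 k3 x i z k) e).len p.prog.last
          (p.prog.pos (p.out i3 k3 x i z k) e false) ≤
          p.nT * p.m * p.m * p.g * p.W + (2 * p.g * p.m +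
          (p.nX * p.m * p.nX * p.m * p.nT) * 2) := by
    intro e
    show (dite _ _ _ : Opd F V p.Item).len _ _ ≤ _
    split_ifs with h
    · have ht := hp.t_pos ⟨e, h⟩
      have htm : p.t ⟨e, h⟩ ≤ p.m := Nat.le_of_dvd hm (hp.t_dvd _)
      show dst (p.pt i3 k3 e (p.t ⟨e, h⟩) (i / p.t ⟨e, h⟩) (k / p.t ⟨e, h⟩) (p.N - 1)
        (2 * p.t ⟨e, h⟩ ^ 2 + 2 * (k % p.t ⟨e, h⟩) + 1) (i % p.t ⟨e, h⟩))
        (((p.base i3 k3 : ℕ) : ℤ), ((2 * p.g * p.m +
        (((((x : ℕ) * p.m + i) * p.nX + z) * p.m + k) * p.nT + e) * 2 + 0 : ℕ) : ℤ)) ≤ _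
      generalize p.t ⟨e, h⟩ = t at *
      have hi : (i : ℕ) % t < t := Nat.mod_lt _ ht
      have hk : (k : ℕ) % t < t := Nat.mod_lt _ ht
      have hI : (i : ℕ) / t < p.m := lt_of_le_of_lt (Nat.div_le_self _ _) i.2
      have hJ : (k : ℕ) / t < p.m := lt_of_le_of_lt (Nat.div_le_self _ _) k.2
      have hN : (p.N - 1) / p.g < p.g := by
        rw [Nat.div_lt_iff_lt_mul hg]
        exact Nat.sub_lt (Nat.mul_pos hg hg) one_pos
      have hu : 2 * t ^ 2 + 2 * (k % t) + 1 ≤ p.W := by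
        have : t ^ 2 ≤ p.m ^ 2 := Nat.pow_le_pow_left htm 2
        have h2 : t ≤ t ^ 2 := by nlinarith
        show _ ≤ 4 * p.m ^ 2
        omega
      -- x part
      have hx : (((e * p.m + i / t) * p.m + k / t) * p.g + (p.N - 1) / p.g) * p.W +
          (2 * t ^ 2 + 2 * (k % t) + 1) ≤ p.nT * p.m * p.m * p.g * p.W := by
        have a1 : e * p.m + i / t + 1 ≤ p.nT * p.m := by
          calc e * p.m + i / t + 1 ≤ e * p.m + p.m := by omega
            _ = (e + 1) * p.m := by ring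
            _ ≤ p.nT * p.m := Nat.mul_le_mul_right _ h
        have a2 : (e * p.m + i / t) * p.m + k / t + 1 ≤ p.nT * p.m * p.m := by
          calc (e * p.m + i / t) * p.m + k / t + 1 ≤ (e * p.m + i / t) * p.m + p.m := by omega
            _ = (e * p.m + i / t + 1) * p.m := by ring
            _ ≤ p.nT * p.m * p.m := Nat.mul_le_mul_right _ a1
        have a3 : ((e * p.m + i / t) * p.m + k / t) * p.g + (p.N - 1) / p.g + 1 ≤
            p.nT * p.m * p.m * p.g := by
          calc ((e * p.m + i / t) * p.m + k / t) * p.g + (p.N - 1) / p.g + 1 ≤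
              ((e * p.m + i / t) * p.m + k / t) * p.g + p.g := by omega
            _ = ((e * p.m + i / t) * p.m + k / t + 1) * p.g := by ring
            _ ≤ p.nT * p.m * p.m * p.g := Nat.mul_le_mul_right _ a2
        calc (((e * p.m + i / t) * p.m + k / t) * p.g + (p.N - 1) / p.g) * p.W +
              (2 * t ^ 2 + 2 * (k % t) + 1) ≤
              (((e * p.m + i / t) * p.m + k / t) * p.g + (p.N - 1) / p.g) * p.W + p.W := by
                exact Nat.add_le_add_left hu _
          _ = (((e * p.m + i / t) * p.m + k / t) * p.g + (p.N - 1) / p.g + 1) * p.W := by ring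
          _ ≤ p.nT * p.m * p.m * p.g * p.W := Nat.mul_le_mul_right _ a3
      have hy : (p.N - 1) % p.g * (2 * t) + i % t ≤ 2 * p.g * p.m := by
        have b1 : (p.N - 1) % p.g < p.g := Nat.mod_lt _ hg
        calc (p.N - 1) % p.g * (2 * t) + i % t ≤ (p.N - 1) % p.g * (2 * t) + 2 * t := by omega
          _ = ((p.N - 1) % p.g + 1) * (2 * t) := by ring
          _ ≤ p.g * (2 * t) := Nat.mul_le_mul_right _ b1
          _ ≤ p.g * (2 * p.m) := Nat.mul_le_mul_left _ (by omega)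
          _ = 2 * p.g * p.m := by ring
      have hz : ((((x : ℕ) * p.m + i) * p.nX + z) * p.m + k) * p.nT + e ≤
          p.nX * p.m * p.nX * p.m * p.nT := by
        have c1 : (x : ℕ) * p.m + i + 1 ≤ p.nX * p.m := by
          calc (x : ℕ) * p.m + i + 1 ≤ x * p.m + p.m := by omega
            _ = (x + 1) * p.m := by ring
            _ ≤ p.nX * p.m := Nat.mul_le_mul_right _ x.2
        have c2 : ((x : ℕ) * p.m + i) * p.nX + z + 1 ≤ p.nX * p.m * p.nX := by
          calc ((x : ℕ) * p.m + i) * p.nX + z + 1 ≤ (x * p.m + i) * p.nX + p.nX := by omega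
            _ = (x * p.m + i + 1) * p.nX := by ring
            _ ≤ p.nX * p.m * p.nX := Nat.mul_le_mul_right _ c1
        have c3 : (((x : ℕ) * p.m + i) * p.nX + z) * p.m + k + 1 ≤ p.nX * p.m * p.nX * p.m := by
          calc (((x : ℕ) * p.m + i) * p.nX + z) * p.m + k + 1 ≤
              ((x * p.m + i) * p.nX + z) * p.m + p.m := by omega
            _ = ((x * p.m + i) * p.nX + z + 1) * p.m := by ring
            _ ≤ p.nX * p.m * p.nX * p.m := Nat.mul_le_mul_right _ c2
        calc ((((x : ℕ) * p.m + i) * p.nX + z) * p.m + k) * p.nT + e ≤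
              (((x * p.m + i) * p.nX + z) * p.m + k) * p.nT + p.nT := by omega
          _ = (((x * p.m + i) * p.nX + z) * p.m + k + 1) * p.nT := by ring
          _ ≤ p.nX * p.m * p.nX * p.m * p.nT := Nat.mul_le_mul_right _ c3
      simp only [dst, Par.pt]
      generalize ((((x : ℕ) * p.m + i) * p.nX + z) * p.m + k) * p.nT + e = z1 at *
      generalize (((e * p.m + i / t) * p.m + k / t) * p.g + (p.N - 1) / p.g) * p.W = x1 at *
      generalize (p.N - 1) % p.g * (2 * t) = y1 at *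
      generalize p.nX * p.m * p.nX * p.m * p.nT = A at *
      generalize p.nT * p.m * p.m * p.g * p.W = B at *
      generalize 2 * p.g * p.m = C at *
      generalize p.base i3 k3 = D at *
      generalize t ^ 2 = T2 at *
      push_cast
      omega
    · exact Nat.zero_le _
  have h8 : p.prog.itemCost (p.out i3 k3 x i z k) ≤ ∑ e ∈ range p.nT, (5 +
      (p.nT * p.m * p.m * p.g * p.W + (2 * p.g * p.m +
          (p.nX * p.m * p.nX * p.m * p.nT) * 2))) := by
    refine Finset.sum_le_sum fun e he => ?_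
    have h1e := h1 e
    have h3e := h3 e
    have h2e : (p.prog.fst (p.out i3 k3 x i z k) e).len p.prog.last
          (p.prog.pos (p.out i3 k3 x i z k) e false) = 0 := by
      show (dite _ _ _ : Opd F V p.Item).len _ _ = _
      split_ifs <;> rfl
    have h4e : (if e = 0 then 0 else dst (p.prog.pos (p.out i3 k3 x i z k) (e - 1) true)
        (p.prog.pos (p.out i3 k3 x i z k) e true)) ≤ 2 := by
      split_ifs with h0
      · omega
      · exact (h4 e h0).le
    show 2 + _ + _ + _ + _ ≤ _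
    omega
  rw [Finset.sum_const, Finset.card_range, smul_eq_mul] at h8
  refine h8.trans ?_
  have hnT := hp.nT_pos
  have hnX := hp.nX_pos
  have m4 : 1 ≤ p.m ^ 4 := Nat.one_le_pow _ _ hm
  have hT2 : p.nT ≤ p.nT ^ 2 := by nlinarith
  have hX2 : 1 ≤ p.nX ^ 2 := Nat.one_le_pow _ _ hnX
  have m14 : p.m ≤ p.m ^ 4 := Nat.le_self_pow (by norm_num) _
  have m24 : p.m ^ 2 ≤ p.m ^ 4 := Nat.pow_le_pow_right hm (by norm_num)
  have d1 : p.nT * 5 ≤ 5 * (p.g * p.nX ^ 2 * p.nT ^ 2 * p.m ^ 4) := by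
    calc p.nT * 5 = 5 * (1 * 1 * p.nT * 1) := by ring
      _ ≤ 5 * (p.g * p.nX ^ 2 * p.nT ^ 2 * p.m ^ 4) := by gcongr <;> omega
  have d2 : p.nT * (p.nT * p.m * p.m * p.g * p.W) ≤
      4 * (p.g * p.nX ^ 2 * p.nT ^ 2 * p.m ^ 4) := by
    calc p.nT * (p.nT * p.m * p.m * p.g * (4 * p.m ^ 2)) = 4 * (p.g * 1 * p.nT ^ 2 * p.m ^ 4) := by
          ring
      _ ≤ 4 * (p.g * p.nX ^ 2 * p.nT ^ 2 * p.m ^ 4) := by gcongr
  have d3 : p.nT * (2 * p.g * p.m) ≤ 2 * (p.g * p.nX ^ 2 * p.nT ^ 2 * p.m ^ 4) := by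
    calc p.nT * (2 * p.g * p.m) = 2 * (p.g * 1 * p.nT * p.m) := by ring
      _ ≤ 2 * (p.g * p.nX ^ 2 * p.nT ^ 2 * p.m ^ 4) := by gcongr
  have d4 : p.nT * ((p.nX * p.m * p.nX * p.m * p.nT) * 2) ≤
      2 * (p.g * p.nX ^ 2 * p.nT ^ 2 * p.m ^ 4) := by
    calc p.nT * ((p.nX * p.m * p.nX * p.m * p.nT) * 2) =
          2 * (1 * p.nX ^ 2 * p.nT ^ 2 * p.m ^ 2) := by ring
      _ ≤ 2 * (p.g * p.nX ^ 2 * p.nT ^ 2 * p.m ^ 4) := by gcongr <;> omega
  have e3 : 20 * p.g * p.nX ^ 2 * p.nT ^ 2 * p.m ^ 4 =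
      20 * (p.g * p.nX ^ 2 * p.nT ^ 2 * p.m ^ 4) := by ring
  rw [e3, mul_add, mul_add, mul_add]
  omega

theorem t_ITEM : S_ITEM := by
  intro F V _ p hp i3 k3
  exact ⟨fun τ i J j => item_left p i3 k3 τ i J j, fun τ k I j => item_right p i3 k3 τ k I j,
    fun τ i k => item_mid p hp i3 k3 τ i k, fun x i z k => item_out p hp i3 k3 x i z k⟩

end Pool.Agent.U458.SP
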